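import Pool.Agent.Helper78.OE.NumC

/-! OE: NUM, the choice of the parameters. -/

namespace Pool.Agent.Helper94.OE

open Pool.Agent.Helper73.OE Pool.Agent.Helper78.OE

theorem sg_pow {ε : ℝ} (h1 : ε ≤ 1) (m : ℕ) : 1 - m * ε ≤ (1 - ε) ^ m := by
  have h := one_add_mul_le_pow (a := -ε) (by linarith) m
  have e1 : 1 + (m : ℝ) * -ε = 1 - m * ε := by ring
  have e2 : (1 : ℝ) + -ε = 1 - ε := by ring
  rwa [e1, e2] at h

theorem sg_pow_le {ε : ℝ} (h0 : 0 ≤ ε) (h1 : ε ≤ 1) (m : ℕ) : (1 - ε) ^ m * (1 + m * ε) ≤ 1 := by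
  have h := one_add_mul_le_pow (a := ε) (by linarith) m
  calc (1 - ε) ^ m * (1 + m * ε) ≤ (1 - ε) ^ m * (1 + ε) ^ m :=
        mul_le_mul_of_nonneg_left h (pow_nonneg (by linarith) m)
    _ = ((1 - ε) * (1 + ε)) ^ m := (mul_pow _ _ _).symm
    _ ≤ 1 := pow_le_one₀ (mul_nonneg (by linarith) (by linarith)) (by nlinarith)

theorem num (n : ℕ) (hn : 3 ≤ n) : NUM n := by
  refine ⟨2 ^ 43, by positivity, fun l ε hε1 hε2 => ?_⟩
  rcases Nat.eq_zero_or_pos l with rfl | hl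
  · refine ⟨1, 1, le_rfl, zero_le_one, Or.inl le_rfl, ?_⟩
    have hε0 : (0 : ℝ) < ε := lt_of_lt_of_le (by positivity) hε1
    have h1 : (1 : ℝ) / ε ≤ 4096 := by
      rw [div_le_iff₀ hε0]
      have : (1 / 2 : ℝ) ^ (12 * (0 + 1)) = 1 / 4096 := by norm_num
      rw [this] at hε1
      linarith
    have h2 : (2 : ℝ) ^ (9 * 0) = 1 := by norm_num
    rw [h2]
    have h4 : (4096 : ℝ) + 4 ≤ 2 ^ 43 * 1 := by norm_num
    linarith
  -- the scale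
  obtain ⟨K, hK⟩ : ∃ K : ℝ, K = 2 ^ l := ⟨_, rfl⟩
  have hK2 : 2 ≤ K := by
    rw [hK]
    calc (2 : ℝ) = 2 ^ 1 := (pow_one 2).symm
      _ ≤ 2 ^ l := pow_le_pow_right₀ (by norm_num) hl
  have hK0 : 0 < K := by linarith
  have eK9 : (2 : ℝ) ^ (9 * l) = K ^ 9 := by rw [hK, ← pow_mul, mul_comm]
  have eK11 : (2 : ℝ) ^ (11 * l) = K ^ 11 := by rw [hK, ← pow_mul, mul_comm]
  have eK12 : (1 / 2 : ℝ) ^ (12 * l) = 1 / K ^ 12 := by
    rw [hK, ← pow_mul, mul_comm, one_div, inv_pow, one_div]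
  have eK12' : (1 / 2 : ℝ) ^ (12 * (l + 1)) = 1 / (4096 * K ^ 12) := by
    rw [mul_add, pow_add, eK12]
    norm_num
  rw [eK12'] at hε1
  rw [eK12] at hε2
  have hK12 : 0 < K ^ 12 := by positivity
  have hε0 : 0 < ε := lt_of_lt_of_le (by positivity) hε1
  have hK3 : (8 : ℝ) ≤ K ^ 3 := by
    calc (8 : ℝ) = 2 ^ 3 := by norm_num
      _ ≤ K ^ 3 := pow_le_pow_left₀ (by norm_num) hK2 3
  have hK3' : 0 < K ^ 3 := by positivity
  have hε9 : K ^ 9 * ε ≤ 1 / K ^ 3 := by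
    calc K ^ 9 * ε ≤ K ^ 9 * (1 / K ^ 12) := mul_le_mul_of_nonneg_left hε2 (by positivity)
      _ = 1 / K ^ 3 := by field_simp
  have hε9' : 1 / (4096 * K ^ 3) ≤ K ^ 9 * ε := by
    calc 1 / (4096 * K ^ 3) = K ^ 9 * (1 / (4096 * K ^ 12)) := by field_simp
      _ ≤ K ^ 9 * ε := mul_le_mul_of_nonneg_left hε1 (by positivity)
  have hi3 : 1 / K ^ 3 ≤ 1 / 8 := one_div_le_one_div_of_le (by norm_num) hK3
  have hε1' : ε ≤ 1 := by
    have h9 : (1 : ℝ) ≤ K ^ 9 := one_le_pow₀ (by linarith)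
    have h10 : ε ≤ K ^ 9 * ε := le_mul_of_one_le_left hε0.le h9
    linarith
  -- (a)
  obtain ⟨sJ, hsJ⟩ : ∃ s : ℝ, s = (1 - ε) ^ (2 * 2 ^ (9 * l)) := ⟨_, rfl⟩
  have hsJ1 : 1 - 2 / K ^ 3 ≤ sJ := by
    rw [hsJ]
    refine le_trans ?_ (sg_pow hε1' (2 * 2 ^ (9 * l)))
    have e1 : ((2 * 2 ^ (9 * l) : ℕ) : ℝ) = 2 * K ^ 9 := by
      rw [← eK9]
      push_cast
      ring
    rw [e1]
    have e2 : (2 : ℝ) / K ^ 3 = 2 * (1 / K ^ 3) := by ring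
    rw [e2]
    nlinarith
  have hsJ2 : 3 / 4 ≤ sJ := by
    have e2 : (2 : ℝ) / K ^ 3 = 2 * (1 / K ^ 3) := by ring
    rw [e2] at hsJ1
    linarith
  have hsJ0 : 0 < sJ := by linarith
  have hsJ3 : sJ ≤ 1 := by
    rw [hsJ]
    exact pow_le_one₀ (by linarith) (by linarith)
  have hinv : 1 / sJ - 1 ≤ 3 / K ^ 3 := by
    have e1 : 1 / sJ - 1 = (1 - sJ) / sJ := by field_simp
    rw [e1, div_le_iff₀ hsJ0]
    have e2 : 1 - sJ ≤ 2 * (1 / K ^ 3) := by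
      have : (2 : ℝ) / K ^ 3 = 2 * (1 / K ^ 3) := by ring
      rw [this] at hsJ1
      linarith
    have e3 : (3 : ℝ) / K ^ 3 = 3 * (1 / K ^ 3) := by ring
    rw [e3]
    have e4 : 0 < 1 / K ^ 3 := by positivity
    nlinarith
  -- (b)
  have hpp : 1 / (8192 * K ^ 3) ≤ 1 - (1 - ε) ^ (2 ^ (9 * l) + 1) := by
    have h := sg_pow_le hε0.le hε1' (2 ^ (9 * l) + 1)
    have e1 : ((2 ^ (9 * l) + 1 : ℕ) : ℝ) = K ^ 9 + 1 := by
      rw [← eK9]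
      push_cast
      ring
    rw [e1] at h
    have e2 : 0 ≤ (1 - ε) ^ (2 ^ (9 * l) + 1) := pow_nonneg (by linarith) _
    obtain ⟨t, ht⟩ : ∃ t : ℝ, t = (1 - ε) ^ (2 ^ (9 * l) + 1) := ⟨_, rfl⟩
    rw [← ht] at h e2 ⊢
    have e3 : ε ≤ 1 / K ^ 3 := by
      have h9 : (1 : ℝ) ≤ K ^ 9 := one_le_pow₀ (by linarith)
      have h10 : ε ≤ K ^ 9 * ε := le_mul_of_one_le_left hε0.le h9
      linarith
    obtain ⟨m, hm⟩ : ∃ m : ℝ, m = (K ^ 9 + 1) * ε := ⟨_, rfl⟩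
    rw [← hm] at h
    have e4 : m ≤ 1 := by rw [hm]; nlinarith
    have e5 : 1 / (4096 * K ^ 3) ≤ m := by rw [hm]; nlinarith
    have e6 : 0 < m := lt_of_lt_of_le (by positivity) e5
    have e7 : m / 2 ≤ 1 - t := by
      have e8 : t ≤ 1 / (1 + m) := by rw [le_div_iff₀ (by linarith)]; exact h
      have e9 : 1 / (1 + m) ≤ 1 - m / 2 := by
        rw [div_le_iff₀ (by linarith)]
        nlinarith
      linarith
    have e8 : 1 / (8192 * K ^ 3) = 1 / (4096 * K ^ 3) / 2 := by field_simp; norm_num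
    rw [e8]
    linarith
  -- (c)
  have hN1 : (1 : ℝ) ≤ (n : ℝ) - 2 := by
    have : (3 : ℝ) ≤ n := by exact_mod_cast hn
    linarith
  have key : ∀ c : ℕ, ((n : ℝ) - 2) * (K ^ 3 / 2 ^ 27) ≤ Lam n (ParL l c) ε := by
    intro c
    unfold Lam pp ParL
    have e1 : K ^ 9 * (3 / 4) ≤ ∑ j ∈ Finset.range (2 ^ (9 * l)), (1 - ε) ^ (2 * j + 1) := by
      have e2 : ∑ _j ∈ Finset.range (2 ^ (9 * l)), (3 / 4 : ℝ) = K ^ 9 * (3 / 4) := by
        rw [Finset.sum_const, Finset.card_range, nsmul_eq_mul, ← eK9]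
        push_cast
        ring
      rw [← e2]
      refine Finset.sum_le_sum fun j hj => ?_
      have e3 := Finset.mem_range.1 hj
      refine le_trans hsJ2 ?_
      rw [hsJ]
      exact pow_le_pow_of_le_one (by linarith) (by linarith) (by omega)
    obtain ⟨q, hq⟩ : ∃ q : ℝ, q = 1 - (1 - ε) ^ (2 ^ (9 * l) + 1) := ⟨_, rfl⟩
    obtain ⟨s, hs⟩ : ∃ s : ℝ, s = ∑ j ∈ Finset.range (2 ^ (9 * l)), (1 - ε) ^ (2 * j + 1) :=
      ⟨_, rfl⟩
    rw [← hq] at hpp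
    rw [← hs] at e1
    show ((n : ℝ) - 2) * (K ^ 3 / 2 ^ 27) ≤ ((n : ℝ) - 2) * (1 - (1 - ε) ^ (2 ^ (9 * l) + 1)) ^ 2 *
      ∑ j ∈ Finset.range (2 ^ (9 * l)), (1 - ε) ^ (2 * j + 1)
    rw [← hq, ← hs, mul_assoc]
    refine mul_le_mul_of_nonneg_left ?_ (by linarith)
    calc K ^ 3 / 2 ^ 27 ≤ (1 / (8192 * K ^ 3)) ^ 2 * (K ^ 9 * (3 / 4)) := by
          have e5 : (1 / (8192 * K ^ 3)) ^ 2 * (K ^ 9 * (3 / 4)) = K ^ 3 * (3 / 4 / 2 ^ 26) := by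
            field_simp
            norm_num
          have e6 : K ^ 3 / 2 ^ 27 = K ^ 3 * (1 / 2 ^ 27) := by ring
          rw [e5, e6]
          refine mul_le_mul_of_nonneg_left ?_ hK3'.le
          norm_num
      _ ≤ q ^ 2 * s := by
          refine mul_le_mul (pow_le_pow_left₀ (by positivity) hpp 2) e1 (by positivity)
            (by positivity)
  -- (d)
  obtain ⟨L, hL⟩ : ∃ L : ℝ, L = Lam n (ParL l 0) ε := ⟨_, rfl⟩
  have hLam : ∀ c, Lam n (ParL l c) ε = L := fun c => by rw [hL]; rfl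
  have hLb : ((n : ℝ) - 2) * (K ^ 3 / 2 ^ 27) ≤ L := by rw [hL]; exact key 0
  have hL0 : 0 < L := lt_of_lt_of_le (mul_pos (by linarith) (by positivity)) hLb
  have hLb' : K ^ 3 / 2 ^ 27 ≤ L := le_trans (le_mul_of_one_le_left (by positivity) hN1) hLb
  have hNL : ((n : ℝ) - 2) / L ≤ 2 ^ 27 / K ^ 3 := by
    rw [div_le_div_iff₀ hL0 hK3']
    have e1 : ((n : ℝ) - 2) * K ^ 3 = 2 ^ 27 * (((n : ℝ) - 2) * (K ^ 3 / 2 ^ 27)) := by
      field_simp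
    rw [e1]
    exact mul_le_mul_of_nonneg_left hLb (by positivity)
  have h1L : 1 / L ≤ 2 ^ 27 / K ^ 3 := by
    rw [div_le_div_iff₀ hL0 hK3', one_mul]
    have e1 : K ^ 3 = 2 ^ 27 * (K ^ 3 / 2 ^ 27) := by field_simp
    rw [e1]
    exact mul_le_mul_of_nonneg_left hLb' (by positivity)
  have hvv : ∀ c, vv n (ParL l c) ε ≤ 2 ^ 28 / K ^ 3 ∧ 0 ≤ vv n (ParL l c) ε := by
    intro c
    have e1 : vv n (ParL l c) ε = ((n : ℝ) - 2) / L + (1 / sJ - 1) := by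
      unfold vv
      rw [hLam c, hsJ]
      show ((n : ℝ) - 2) / L + 1 / (1 - ε) ^ (2 * 2 ^ (9 * l)) - 1 = _
      ring
    rw [e1]
    constructor
    · have e2 : (2 : ℝ) ^ 27 / K ^ 3 + 3 / K ^ 3 ≤ 2 ^ 28 / K ^ 3 := by
        rw [← add_div]
        exact div_le_div_of_nonneg_right (by norm_num) hK3'.le
      linarith
    · have e2 : 1 ≤ 1 / sJ := by rw [le_div_iff₀ hsJ0, one_mul]; exact hsJ3
      have e3 : 0 ≤ ((n : ℝ) - 2) / L := div_nonneg (by linarith) hL0.le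
      linarith
  have hβ : (0 : ℝ) < 1 / K := by positivity
  obtain ⟨c, hc⟩ : ∃ c : ℕ, c = ⌈(1 + 1 / K) * L⌉₊ := ⟨_, rfl⟩
  have hc1 : (1 + 1 / K) * L ≤ c := by rw [hc]; exact Nat.le_ceil _
  have hc2 : (c : ℝ) < (1 + 1 / K) * L + 1 := by
    rw [hc]; exact Nat.ceil_lt_add_one (by positivity)
  have hLc : L ≤ c := le_trans (by nlinarith [mul_pos hβ hL0]) hc1
  have hc0 : (0 : ℝ) < c := lt_of_lt_of_le hL0 hLc
  have hc3 : 1 ≤ c := by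
    have : 0 < c := by exact_mod_cast hc0
    omega
  have hK1 : (1 : ℝ) ≤ K := by linarith
  refine ⟨c, 2 ^ 30 / K, hc3, by positivity, Or.inr ⟨by rw [hLam]; exact hL0, ?_, 1 / K, hβ,
    by rw [hLam]; exact hc1, ?_⟩, ?_⟩
  · have h9 : (1 : ℝ) ≤ K ^ 9 := one_le_pow₀ (by linarith)
    have h10 : ε ≤ K ^ 9 * ε := le_mul_of_one_le_left hε0.le h9
    linarith
  · rw [hLam]
    obtain ⟨v, hv⟩ : ∃ v : ℝ, v = vv n (ParL l c) ε := ⟨_, rfl⟩
    obtain ⟨hv1, hv2⟩ := hvv c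
    rw [← hv] at hv1 hv2 ⊢
    show 1 - L / (c : ℝ) + 2 * ((1 + 1 / K) / (1 / K) ^ 2 * v * L) / (c : ℝ) ≤ 2 ^ 30 / K
    have e1 : 1 - L / (c : ℝ) ≤ 1 / K + 1 / L := by
      have e2 : 1 - L / (c : ℝ) = (c - L) / c := by field_simp
      rw [e2, div_le_iff₀ hc0]
      have e3 : (c : ℝ) - L ≤ 1 / K * L + 1 := by linarith
      have e4 : 1 / K * L + 1 = (1 / K + 1 / L) * L := by field_simp
      have e5 : (1 / K + 1 / L) * L ≤ (1 / K + 1 / L) * c :=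
        mul_le_mul_of_nonneg_left hLc (by positivity)
      linarith
    have e2 : 2 * ((1 + 1 / K) / (1 / K) ^ 2 * v * L) / (c : ℝ) ≤ 2 * v * K ^ 2 := by
      rw [div_le_iff₀ hc0]
      have e3 : 2 * ((1 + 1 / K) / (1 / K) ^ 2 * v * L) = 2 * v * K ^ 2 * ((1 + 1 / K) * L) := by
        field_simp
      rw [e3]
      exact mul_le_mul_of_nonneg_left hc1 (by positivity)
    have e3 : 2 * v * K ^ 2 ≤ 2 ^ 29 / K := by
      calc 2 * v * K ^ 2 ≤ 2 * (2 ^ 28 / K ^ 3) * K ^ 2 := by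
            refine mul_le_mul_of_nonneg_right ?_ (by positivity)
            linarith
        _ = 2 ^ 29 / K := by field_simp
    have e4 : (2 : ℝ) ^ 27 / K ^ 3 ≤ 2 ^ 27 / K :=
      div_le_div_of_nonneg_left (by positivity) hK0 (by
        calc K = K ^ 1 := (pow_one K).symm
          _ ≤ K ^ 3 := pow_le_pow_right₀ hK1 (by norm_num))
    have e5 : 1 / K + 2 ^ 27 / K + 2 ^ 29 / K ≤ 2 ^ 30 / K := by
      rw [← add_div, ← add_div]
      exact div_le_div_of_nonneg_right (by norm_num) hK0.le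
    linarith
  · rw [eK9, eK11]
    have e1 : 2 ^ 30 / K / ε ≤ 2 ^ 42 * K ^ 11 := by
      rw [div_le_iff₀ hε0]
      have e2 : (2 : ℝ) ^ 30 / K = 2 ^ 42 * K ^ 11 * (1 / (4096 * K ^ 12)) := by
        field_simp
        norm_num
      rw [e2]
      exact mul_le_mul_of_nonneg_left hε1 (by positivity)
    have e2 : K ^ 9 ≤ K ^ 11 := pow_le_pow_right₀ hK1 (by norm_num)
    have e3 : (0 : ℝ) ≤ K ^ 11 := by positivity
    have e4 : (4 : ℝ) * K ^ 11 + 2 ^ 42 * K ^ 11 ≤ 2 ^ 43 * K ^ 11 := by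
      have : (4 : ℝ) + 2 ^ 42 ≤ 2 ^ 43 := by norm_num
      nlinarith
    linarith

end Pool.Agent.Helper94.OE
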